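import Mathlib

/-! # Hölder maps of the interval: the metric mean dimension is at most `1 - α`

The problem `MP_428550_an`: an `α`-Hölder map of `[0,1]` never has metric mean dimension one; in fact its upper
metric mean dimension is at most `1 - α`.
-/

set_option autoImplicit false

open Filter Topology

namespace Pool.Agent.V7H80.Moved.HolderMdimH80

/-- the interval `[0,1]` -/
abbrev I : Type := Set.Icc (0 : ℝ) 1

/-- The finite set `A` is `(n, φ, ε)`-separated: `max_{0 ≤ j < n} |φ^j x - φ^j y| > ε` for all distinct `x, y ∈ A`. -/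
def Separated (φ : I → I) (n : ℕ) (ε : ℝ) (A : Finset I) : Prop :=
  ∀ x ∈ A, ∀ y ∈ A, x ≠ y → ∃ j < n, ε < |(φ^[j] x : ℝ) - (φ^[j] y : ℝ)|

/-- `sep(n, φ, ε)`: the maximal cardinality of an `(n, φ, ε)`-separated set. -/
noncomputable def sepNum (φ : I → I) (n : ℕ) (ε : ℝ) : ℕ :=
  sSup {k : ℕ | ∃ A : Finset I, Separated φ n ε A ∧ A.card = k}

/-- `sep(φ, ε) = limsup (1/n) log sep(n, φ, ε)`. -/
noncomputable def sepRate (φ : I → I) (ε : ℝ) : EReal :=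
  limsup (fun n : ℕ => ((Real.log (sepNum φ n ε) / n : ℝ) : EReal)) atTop

/-- the upper metric mean dimension -/
noncomputable def upperMdim (φ : I → I) : EReal :=
  limsup (fun ε : ℝ => sepRate φ ε / ((|Real.log ε| : ℝ) : EReal)) (𝓝[>] 0)

/-- the lower metric mean dimension -/
noncomputable def lowerMdim (φ : I → I) : EReal :=
  liminf (fun ε : ℝ => sepRate φ ε / ((|Real.log ε| : ℝ) : EReal)) (𝓝[>] 0)

/-- `φ` is `α`-Hölder continuous. -/
def IsHolder (α : ℝ) (φ : I → I) : Prop :=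
  ∃ K : ℝ, 0 < K ∧ ∀ x y : I, |(φ x : ℝ) - (φ y : ℝ)| ≤ K * |(x : ℝ) - (y : ℝ)| ^ α

/-- the index of the interval of length `ε` which contains `x` -/
noncomputable def idx (ε : ℝ) (x : I) : ℤ := ⌊(x : ℝ) / ε⌋

lemma abs_lt_of_idx {ε : ℝ} (hε : 0 < ε) {x y : I} (h : idx ε x = idx ε y) :
    |(x : ℝ) - (y : ℝ)| < ε := by
  have h1 := Int.abs_sub_lt_one_of_floor_eq_floor h
  rw [← sub_div, abs_div, abs_of_pos hε, div_lt_one hε] at h1
  exact h1

/-- the number of choices for the next index -/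
noncomputable def L (K α ε : ℝ) : ℕ := ⌈K * ε ^ (α - 1)⌉₊ + 1

lemma idx_image {φ : I → I} {K α ε : ℝ} (hK : 0 < K) (hα : 0 < α) (hε : 0 < ε)
    (hφ : ∀ x y : I, |(φ x : ℝ) - (φ y : ℝ)| ≤ K * |(x : ℝ) - (y : ℝ)| ^ α) {x y : I}
    (h : idx ε x = idx ε y) : |idx ε (φ x) - idx ε (φ y)| ≤ L K α ε := by
  have h1 := abs_lt_of_idx hε h
  have h2 : |(φ x : ℝ) - (φ y : ℝ)| ≤ K * ε ^ α :=
    (hφ x y).trans (mul_le_mul_of_nonneg_left (Real.rpow_le_rpow (abs_nonneg _) h1.le hα.le) hK.le)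
  have h3 : |(φ x : ℝ) / ε - (φ y : ℝ) / ε| ≤ K * ε ^ (α - 1) := by
    rw [← sub_div, abs_div, abs_of_pos hε, div_le_iff₀ hε]
    refine h2.trans (le_of_eq ?_)
    rw [mul_assoc]
    congr 1
    rw [← Real.rpow_add_one hε.ne']
    ring_nf
  have h4 : (K * ε ^ (α - 1)) ≤ ⌈K * ε ^ (α - 1)⌉₊ := Nat.le_ceil _
  unfold idx
  have h5 := Int.floor_le ((φ x : ℝ) / ε)
  have h6 := Int.lt_floor_add_one ((φ x : ℝ) / ε)
  have h7 := Int.floor_le ((φ y : ℝ) / ε)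
  have h8 := Int.lt_floor_add_one ((φ y : ℝ) / ε)
  have h9 := abs_le.1 (h3.trans h4)
  have h10 : |((⌊(φ x : ℝ) / ε⌋ - ⌊(φ y : ℝ) / ε⌋ : ℤ) : ℝ)| ≤ (L K α ε : ℝ) := by
    unfold L
    push_cast
    rw [abs_le]
    constructor <;> linarith [h9.1, h9.2]
  exact_mod_cast h10

lemma cover_step {φ : I → I} {K α ε : ℝ} (hK : 0 < K) (hα : 0 < α) (hε : 0 < ε)
    (hφ : ∀ x y : I, |(φ x : ℝ) - (φ y : ℝ)| ≤ K * |(x : ℝ) - (y : ℝ)| ^ α) (n c : ℕ) (F : I → Fin c)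
    (hF : ∀ x y, F x = F y → ∀ j < n + 1, idx ε (φ^[j] x) = idx ε (φ^[j] y)) :
    ∃ G : I → Fin (c * (2 * L K α ε + 1)), ∀ x y, G x = G y →
      ∀ j < n + 1 + 1, idx ε (φ^[j] x) = idx ε (φ^[j] y) := by
  classical
  -- the reference index of a class
  have hex : ∀ i : Fin c, ∃ m : ℤ, ∀ x, F x = i → |idx ε (φ^[n + 1] x) - m| ≤ L K α ε := by
    intro i
    by_cases h : ∃ x₀, F x₀ = i
    · obtain ⟨x₀, rfl⟩ := h
      refine ⟨idx ε (φ^[n + 1] x₀), fun x hx => ?_⟩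
      rw [Function.iterate_succ_apply', Function.iterate_succ_apply']
      exact idx_image hK hα hε hφ (hF x x₀ hx n (Nat.lt_succ_self n))
    · exact ⟨0, fun x hx => absurd ⟨x, hx⟩ h⟩
  choose m hm using hex
  have hlt : ∀ x, (idx ε (φ^[n + 1] x) - m (F x) + L K α ε).toNat < 2 * L K α ε + 1 := by
    intro x
    have h1 := abs_le.1 (hm (F x) x rfl)
    omega
  refine ⟨fun x => finProdFinEquiv (F x, ⟨_, hlt x⟩), fun x y h j hj => ?_⟩
  have h1 := finProdFinEquiv.injective h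
  rw [Prod.mk.injEq] at h1
  obtain ⟨h2, h3⟩ := h1
  rcases Nat.lt_or_ge j (n + 1) with hj' | hj'
  · exact hF x y h2 j hj'
  · have hj0 : j = n + 1 := by omega
    subst hj0
    have h4 := Fin.mk.inj_iff.1 h3
    have h5 := abs_le.1 (hm (F x) x rfl)
    have h6 := abs_le.1 (hm (F y) y rfl)
    rw [h2] at h4 h5
    omega

/-- The interval is covered by few sets on which the itineraries agree. -/
lemma cover {φ : I → I} {K α ε : ℝ} (hK : 0 < K) (hα : 0 < α) (hε : 0 < ε)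
    (hφ : ∀ x y : I, |(φ x : ℝ) - (φ y : ℝ)| ≤ K * |(x : ℝ) - (y : ℝ)| ^ α) (n : ℕ) :
    ∃ F : I → Fin ((⌊1 / ε⌋₊ + 1) * (2 * L K α ε + 1) ^ n), ∀ x y, F x = F y →
      ∀ j < n + 1, idx ε (φ^[j] x) = idx ε (φ^[j] y) := by
  classical
  induction n with
  | zero =>
    have hb : ∀ x : I, ⌊(x : ℝ) / ε⌋₊ < (⌊1 / ε⌋₊ + 1) * (2 * L K α ε + 1) ^ 0 := by
      intro x
      rw [pow_zero, mul_one, Nat.lt_succ_iff]
      exact Nat.floor_le_floor (div_le_div_of_nonneg_right x.2.2 hε.le)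
    refine ⟨fun x => ⟨⌊(x : ℝ) / ε⌋₊, hb x⟩, fun x y h j hj => ?_⟩
    have hj0 : j = 0 := by omega
    subst hj0
    have h1 : ⌊(x : ℝ) / ε⌋₊ = ⌊(y : ℝ) / ε⌋₊ := Fin.mk.inj_iff.1 h
    have h2 := Int.natCast_floor_eq_floor (div_nonneg x.2.1 hε.le)
    have h3 := Int.natCast_floor_eq_floor (div_nonneg y.2.1 hε.le)
    show ⌊(x : ℝ) / ε⌋ = ⌊(y : ℝ) / ε⌋
    rw [← h2, ← h3, h1]
  | succ n ih =>
    obtain ⟨F, hF⟩ := ih
    obtain ⟨G, hG⟩ := cover_step hK hα hε hφ n _ F hF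
    rw [pow_succ, ← mul_assoc]
    exact ⟨G, hG⟩

lemma card_le {φ : I → I} {K α ε : ℝ} (hK : 0 < K) (hα : 0 < α) (hε : 0 < ε)
    (hφ : ∀ x y : I, |(φ x : ℝ) - (φ y : ℝ)| ≤ K * |(x : ℝ) - (y : ℝ)| ^ α) (n : ℕ)
    {A : Finset I} (hA : Separated φ (n + 1) ε A) :
    A.card ≤ (⌊1 / ε⌋₊ + 1) * (2 * L K α ε + 1) ^ n := by
  obtain ⟨F, hF⟩ := cover hK hα hε hφ n
  have h1 : Set.InjOn F (A : Set I) := by
    intro x hx y hy h
    by_contra hne
    obtain ⟨j, hj, h2⟩ := hA x hx y hy hne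
    exact absurd (abs_lt_of_idx hε (hF x y h j hj)) (not_lt.2 h2.le)
  calc A.card = (A.image F).card := (Finset.card_image_of_injOn h1).symm
    _ ≤ Fintype.card (Fin ((⌊1 / ε⌋₊ + 1) * (2 * L K α ε + 1) ^ n)) := Finset.card_le_univ _
    _ = _ := Fintype.card_fin _

lemma bdd {φ : I → I} {α : ℝ} (hα : 0 < α) (hφ : IsHolder α φ) {ε : ℝ} (hε : 0 < ε) (n : ℕ) :
    BddAbove {k : ℕ | ∃ A : Finset I, Separated φ (n + 1) ε A ∧ A.card = k} := by
  obtain ⟨K, hK, h⟩ := hφ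
  refine ⟨(⌊1 / ε⌋₊ + 1) * (2 * L K α ε + 1) ^ n, ?_⟩
  rintro k ⟨A, hA, rfl⟩
  exact card_le hK hα hε h n hA

lemma nonempty (φ : I → I) (ε : ℝ) (n : ℕ) :
    {k : ℕ | ∃ A : Finset I, Separated φ n ε A ∧ A.card = k}.Nonempty :=
  ⟨0, ∅, fun x hx => absurd hx (Finset.notMem_empty x), rfl⟩

/-- the number `sep(n, φ, ε)` is attained -/
lemma isGreatest {φ : I → I} {α : ℝ} (hα : 0 < α) (hφ : IsHolder α φ) {ε : ℝ} (hε : 0 < ε) (n : ℕ) :
    IsGreatest {k : ℕ | ∃ A : Finset I, Separated φ (n + 1) ε A ∧ A.card = k}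
      (sepNum φ (n + 1) ε) :=
  ⟨Nat.sSup_mem (nonempty φ ε _) (bdd hα hφ hε n), fun _ h => le_csSup (bdd hα hφ hε n) h⟩

lemma sepNum_le {φ : I → I} {K α ε : ℝ} (hK : 0 < K) (hα : 0 < α) (hε : 0 < ε)
    (hφ : ∀ x y : I, |(φ x : ℝ) - (φ y : ℝ)| ≤ K * |(x : ℝ) - (y : ℝ)| ^ α) (n : ℕ) :
    sepNum φ (n + 1) ε ≤ (⌊1 / ε⌋₊ + 1) * (2 * L K α ε + 1) ^ n := by
  refine csSup_le (nonempty φ ε _) ?_
  rintro k ⟨A, hA, rfl⟩
  exact card_le hK hα hε hφ n hA

lemma sepRate_le {φ : I → I} {K α ε : ℝ} (hK : 0 < K) (hα : 0 < α) (hε : 0 < ε)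
    (hφ : ∀ x y : I, |(φ x : ℝ) - (φ y : ℝ)| ≤ K * |(x : ℝ) - (y : ℝ)| ^ α) :
    sepRate φ ε ≤ ((Real.log (2 * L K α ε + 1) : ℝ) : EReal) := by
  set m : ℝ := 2 * L K α ε + 1 with hm
  have hm1 : 1 ≤ m := by rw [hm]; have : (0 : ℝ) ≤ L K α ε := Nat.cast_nonneg _; linarith
  set c : ℝ := (⌊1 / ε⌋₊ : ℝ) + 1 with hc
  have hc1 : 1 ≤ c := by rw [hc]; have : (0 : ℝ) ≤ (⌊1 / ε⌋₊ : ℝ) := Nat.cast_nonneg _; linarith
  have hlim : Tendsto (fun n : ℕ => ((Real.log c / n + Real.log m : ℝ) : EReal)) atTop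
      (𝓝 ((Real.log m : ℝ) : EReal)) := by
    refine (continuous_coe_real_ereal.tendsto _).comp ?_
    have := (tendsto_const_div_atTop_nhds_zero_nat (Real.log c)).add_const (Real.log m)
    rwa [zero_add] at this
  rw [← hlim.limsup_eq]
  refine limsup_le_limsup ?_
  filter_upwards [eventually_ge_atTop 1] with n hn
  obtain ⟨n, rfl⟩ : ∃ k, n = k + 1 := ⟨n - 1, by omega⟩
  rw [EReal.coe_le_coe_iff]
  have h1 : (sepNum φ (n + 1) ε : ℝ) ≤ c * m ^ n := by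
    have := sepNum_le hK hα hε hφ n
    have h2 : (sepNum φ (n + 1) ε : ℝ) ≤ (((⌊1 / ε⌋₊ + 1) * (2 * L K α ε + 1) ^ n : ℕ) : ℝ) := by
      exact_mod_cast this
    refine h2.trans (le_of_eq ?_)
    push_cast
    rfl
  have h2 : Real.log (sepNum φ (n + 1) ε) ≤ Real.log c + (n + 1) * Real.log m := by
    rcases Nat.eq_zero_or_pos (sepNum φ (n + 1) ε) with h0 | h0
    · rw [h0, Nat.cast_zero, Real.log_zero]
      have := Real.log_nonneg hc1
      have := Real.log_nonneg hm1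
      positivity
    · calc Real.log (sepNum φ (n + 1) ε) ≤ Real.log (c * m ^ n) :=
            Real.log_le_log (by exact_mod_cast h0) h1
        _ = Real.log c + n * Real.log m := by
            rw [Real.log_mul (by positivity) (by positivity), Real.log_pow]
        _ ≤ Real.log c + (n + 1) * Real.log m := by
            have := Real.log_nonneg hm1
            linarith
  have h3 : (0 : ℝ) < ((n + 1 : ℕ) : ℝ) := by positivity
  rw [div_le_iff₀ h3, add_mul, div_mul_cancel₀ _ h3.ne']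
  push_cast
  linarith

/-- The metric mean dimension of an `α`-Hölder map of the interval is at most `1 - α`. -/
theorem upper_le {α : ℝ} (hα : 0 < α) (hα1 : α ≤ 1) {φ : I → I} (hφ : IsHolder α φ) :
    upperMdim φ ≤ ((1 - α : ℝ) : EReal) := by
  obtain ⟨K, hK, h⟩ := hφ
  have hlim : Tendsto (fun ε : ℝ => ((Real.log (2 * K + 5) / |Real.log ε| + (1 - α) : ℝ) : EReal))
      (𝓝[>] 0) (𝓝 ((1 - α : ℝ) : EReal)) := by
    refine (continuous_coe_real_ereal.tendsto _).comp ?_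
    have h1 : Tendsto (fun ε : ℝ => |Real.log ε|) (𝓝[>] 0) atTop :=
      tendsto_abs_atBot_atTop.comp Real.tendsto_log_nhdsGT_zero
    have := (h1.const_div_atTop (Real.log (2 * K + 5))).add_const (1 - α)
    rwa [zero_add] at this
  unfold upperMdim
  rw [← hlim.limsup_eq]
  refine limsup_le_limsup ?_
  filter_upwards [Ioo_mem_nhdsGT (zero_lt_one' ℝ)] with ε hε
  have hlog : 0 < |Real.log ε| := abs_pos.2 (Real.log_neg hε.1 hε.2).ne
  have h1 := sepRate_le hK hα hε.1 h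
  have h2 : (1 : ℝ) ≤ ε ^ (α - 1) := Real.one_le_rpow_of_pos_of_le_one_of_nonpos hε.1 hε.2.le (by linarith)
  have h3 : (2 * L K α ε + 1 : ℝ) ≤ (2 * K + 5) * ε ^ (α - 1) := by
    have h4 : (⌈K * ε ^ (α - 1)⌉₊ : ℝ) < K * ε ^ (α - 1) + 1 := Nat.ceil_lt_add_one (by positivity)
    unfold L
    push_cast
    nlinarith
  have h5 : Real.log (2 * L K α ε + 1) ≤ Real.log (2 * K + 5) + (1 - α) * |Real.log ε| := by
    calc Real.log (2 * L K α ε + 1) ≤ Real.log ((2 * K + 5) * ε ^ (α - 1)) :=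
          Real.log_le_log (by positivity) h3
      _ = Real.log (2 * K + 5) + (α - 1) * Real.log ε := by
          rw [Real.log_mul (by positivity) (by positivity), Real.log_rpow hε.1]
      _ = Real.log (2 * K + 5) + (1 - α) * |Real.log ε| := by
          rw [abs_of_neg (Real.log_neg hε.1 hε.2)]; ring
  calc sepRate φ ε / ((|Real.log ε| : ℝ) : EReal)
      ≤ ((Real.log (2 * L K α ε + 1) : ℝ) : EReal) / ((|Real.log ε| : ℝ) : EReal) :=
        EReal.div_le_div_right_of_nonneg (by exact_mod_cast hlog.le) h1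
    _ = ((Real.log (2 * L K α ε + 1) / |Real.log ε| : ℝ) : EReal) := (EReal.coe_div _ _).symm
    _ ≤ ((Real.log (2 * K + 5) / |Real.log ε| + (1 - α) : ℝ) : EReal) := by
        rw [EReal.coe_le_coe_iff, div_add' _ _ _ hlog.ne']
        exact div_le_div_of_nonneg_right h5 hlog.le

/-- **No Hölder map of the interval has metric mean dimension one.** Let `0 < α ≤ 1` and let `φ` be an
`α`-Hölder continuous map of `[0,1]`. Then the separation numbers of `φ` are attained (finite), and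
`lower mdim ≤ upper mdim ≤ 1 - α < 1`; in particular neither of the two metric mean dimensions is `1`. -/
theorem result (α : ℝ) (hα : 0 < α) (hα1 : α ≤ 1) (φ : I → I) (hφ : IsHolder α φ) :
    (∀ ε : ℝ, 0 < ε → ∀ n : ℕ, 1 ≤ n →
      IsGreatest {k : ℕ | ∃ A : Finset I, Separated φ n ε A ∧ A.card = k} (sepNum φ n ε)) ∧
    upperMdim φ ≤ ((1 - α : ℝ) : EReal) ∧ lowerMdim φ ≤ ((1 - α : ℝ) : EReal) ∧
    upperMdim φ ≠ 1 ∧ lowerMdim φ ≠ 1 := by
  have h1 := upper_le hα hα1 hφ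
  have h2 : lowerMdim φ ≤ ((1 - α : ℝ) : EReal) := (liminf_le_limsup).trans h1
  have h3 : ((1 - α : ℝ) : EReal) < 1 := by
    have : ((1 - α : ℝ) : EReal) < ((1 : ℝ) : EReal) := by
      rw [EReal.coe_lt_coe_iff]; linarith
    simpa using this
  refine ⟨fun ε hε n hn => ?_, h1, h2, (h1.trans_lt h3).ne, (h2.trans_lt h3).ne⟩
  obtain ⟨n, rfl⟩ : ∃ k, n = k + 1 := ⟨n - 1, by omega⟩
  exact isGreatest hα hφ hε n

end Pool.Agent.V7H80.Moved.HolderMdimH80
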